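import Mathlib

/-!
# Sequentially additive numberings: incomplete numberings of a rooted tree

A rooted tree is given by the root `v` and the parent function `par`.
-/

namespace Pool.Agent.Helper19.SeqAdd

open Finset

variable {V : Type*} [Fintype V]

open Classical in
/-- The children of `b`. -/
noncomputable def Ch (v : V) (par : V → V) (b : V) : Finset V :=
  univ.filter fun c => c ≠ v ∧ par c = b

/-- All descendants of `w` have an even number of children. -/
def X (v : V) (par : V → V) (w : V) : Prop :=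
  ∀ d, Relation.ReflTransGen (fun a c => c ≠ v ∧ par c = a) w d → Even (Ch v par d).card

open Classical in
/-- The children `c` of `b` outside `W` with `X c`. -/
noncomputable def XS (v : V) (par : V → V) (W : Finset V) (b : V) : Finset V :=
  univ.filter fun c => c ≠ v ∧ par c = b ∧ c ∉ W ∧ X v par c

section X

variable {v : V} {par : V → V}

theorem mem_Ch {b c : V} : c ∈ Ch v par b ↔ c ≠ v ∧ par c = b := by
  simp [Ch]

theorem mem_XS {W : Finset V} {b c : V} :
    c ∈ XS v par W b ↔ c ≠ v ∧ par c = b ∧ c ∉ W ∧ X v par c := by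
  simp [XS]

theorem X_even {w : V} (h : X v par w) : Even (Ch v par w).card := h w Relation.ReflTransGen.refl

theorem X_child {w c : V} (h : X v par w) (hc : c ≠ v) (hp : par c = w) : X v par c :=
  fun d hd => h d (Relation.ReflTransGen.head ⟨hc, hp⟩ hd)

theorem X_of {w : V} (h1 : Even (Ch v par w).card) (h2 : ∀ c, c ≠ v → par c = w → X v par c) :
    X v par w := by
  intro d hd
  rcases Relation.ReflTransGen.cases_head hd with rfl | ⟨c, ⟨hc1, hc2⟩, hc3⟩
  · exact h1
  · exact h2 c hc1 hc2 d hc3

end X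

/-- An incomplete numbering `h` of the set `W` of vertices, with `D` gaps (pairs `p, p + 1` with `p ∈ P`)
left free: the labels of the vertices and edges of `W` and the gaps cover the integers from `1` to
`2 q - 1`. -/
structure St (v : V) (par : V → V) (R W : Finset V) (h : V → ℕ) (P : Finset ℕ) (D q : ℕ) : Prop where
  root : v ∈ W
  hroot : h v = 1
  closed : ∀ w ∈ W, w ≠ v → par w ∈ W
  pos : ∀ w ∈ W, 1 ≤ h w
  lt : ∀ w ∈ W, h w < 2 * q
  notR : ∀ w ∈ W, w ∉ R
  cardP : P.card ≤ D
  hq : W.card + D = q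
  cov : ∀ j, 1 ≤ j → j < 2 * q → (∃ w ∈ W, h w = j) ∨ (∃ w ∈ W, w ≠ v ∧ h w + h (par w) = j) ∨
    j ∈ P ∨ ∃ p ∈ P, p + 1 = j
  parity : ∀ b ∈ W, Even (h b) → Even (XS v par W b).card

/-- The set of `k` gaps starting at `s`. -/
def gaps (s k : ℕ) : Finset ℕ := (range k).image fun i => s + 2 * i

theorem gaps_card (s k : ℕ) : (gaps s k).card ≤ k := by
  unfold gaps
  exact card_image_le.trans (card_range k).le

theorem gaps_cov (s k : ℕ) {j : ℕ} (h1 : s ≤ j) (h2 : j < s + 2 * k) :
    j ∈ gaps s k ∨ ∃ p ∈ gaps s k, p + 1 = j := by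
  unfold gaps
  rcases Nat.even_or_odd (j - s) with ⟨i, hi⟩ | ⟨i, hi⟩
  · left
    exact mem_image.2 ⟨i, mem_range.2 (by omega), by omega⟩
  · right
    exact ⟨s + 2 * i, mem_image.2 ⟨i, mem_range.2 (by omega), rfl⟩, by omega⟩

section St

variable {v : V} {par : V → V} {R : Finset V} [DecidableEq V]

/-- General extension. -/
theorem St.ext {W : Finset V} {h : V → ℕ} {P : Finset ℕ} {D q : ℕ} (H : St v par R W h P D q)
    (N : Finset V) (g : V → ℕ) (P' : Finset ℕ) (D' : ℕ)
    (hNW : ∀ n ∈ N, n ∉ W) (hNR : ∀ n ∈ N, n ∉ R)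
    (hpar : ∀ n ∈ N, par n ∈ W ∨ par n ∈ N)
    (hg1 : ∀ n ∈ N, 1 ≤ g n) (hg2 : ∀ n ∈ N, g n < 2 * (q + N.card + D'))
    (hP : P'.card ≤ D')
    (hcov : ∀ j, 2 * q ≤ j → j < 2 * (q + N.card + D') → (∃ n ∈ N, g n = j) ∨
      (∃ n ∈ N, g n + (if par n ∈ W then h (par n) else g (par n)) = j) ∨
      j ∈ P' ∨ ∃ p ∈ P', p + 1 = j)
    (hJ : ∀ b ∈ W ∪ N, Even (if b ∈ W then h b else g b) → Even (XS v par (W ∪ N) b).card) :
    St v par R (W ∪ N) (fun w => if w ∈ W then h w else g w) (P ∪ P') (D + D')
      (q + N.card + D') := by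
  have hdisj : Disjoint W N := Finset.disjoint_left.2 fun a h1 h2 => hNW a h2 h1
  constructor
  · exact mem_union_left _ H.root
  · show (if v ∈ W then h v else g v) = 1
    rw [if_pos H.root, H.hroot]
  · intro w hw hwv
    rcases mem_union.1 hw with hw | hw
    · exact mem_union_left _ (H.closed w hw hwv)
    · rcases hpar w hw with h1 | h1
      · exact mem_union_left _ h1
      · exact mem_union_right _ h1
  · intro w hw
    show 1 ≤ (if w ∈ W then h w else g w)
    split_ifs with h1
    · exact H.pos w h1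
    · exact hg1 w ((mem_union.1 hw).resolve_left h1)
  · intro w hw
    show (if w ∈ W then h w else g w) < _
    split_ifs with h1
    · have := H.lt w h1
      omega
    · exact hg2 w ((mem_union.1 hw).resolve_left h1)
  · intro w hw
    rcases mem_union.1 hw with hw | hw
    · exact H.notR w hw
    · exact hNR w hw
  · exact (card_union_le _ _).trans (Nat.add_le_add H.cardP hP)
  · rw [card_union_of_disjoint hdisj]
    have := H.hq
    omega
  · intro j hj1 hj2
    by_cases hj : j < 2 * q
    · rcases H.cov j hj1 hj with ⟨w, hw, h1⟩ | ⟨w, hw, hwv, h1⟩ | h1 | ⟨p, hp, h1⟩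
      · left
        refine ⟨w, mem_union_left _ hw, ?_⟩
        show (if w ∈ W then h w else g w) = j
        rw [if_pos hw, h1]
      · right; left
        refine ⟨w, mem_union_left _ hw, hwv, ?_⟩
        show (if w ∈ W then h w else g w) + (if par w ∈ W then h (par w) else g (par w)) = j
        rw [if_pos hw, if_pos (H.closed w hw hwv), h1]
      · right; right; left
        exact mem_union_left _ h1
      · right; right; right
        exact ⟨p, mem_union_left _ hp, h1⟩
    · rcases hcov j (not_lt.1 hj) hj2 with ⟨w, hw, h1⟩ | ⟨w, hw, h1⟩ | h1 | ⟨p, hp, h1⟩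
      · left
        refine ⟨w, mem_union_right _ hw, ?_⟩
        show (if w ∈ W then h w else g w) = j
        rw [if_neg (hNW w hw), h1]
      · right; left
        refine ⟨w, mem_union_right _ hw, fun h2 => hNW w hw (h2 ▸ H.root), ?_⟩
        show (if w ∈ W then h w else g w) + (if par w ∈ W then h (par w) else g (par w)) = j
        rw [if_neg (hNW w hw), h1]
      · right; right; left
        exact mem_union_right _ h1
      · right; right; right
        exact ⟨p, mem_union_right _ hp, h1⟩
  · exact hJ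

/-- Children of a new vertex are not in `W`. -/
theorem St.child_notMem {W : Finset V} {h : V → ℕ} {P : Finset ℕ} {D q : ℕ}
    (H : St v par R W h P D q) {w c : V} (hw : w ∉ W) (hc : c ≠ v) (hp : par c = w) : c ∉ W :=
  fun h1 => hw (hp ▸ H.closed c h1 hc)

/-- The result of an extension: `N` is added to `W`, the labels on `W` are unchanged. -/
structure Ext (v : V) (par : V → V) (R W : Finset V) (h : V → ℕ) (D q : ℕ) (N : Finset V)
    (D1 q1 : ℕ) (h1 : V → ℕ) : Prop where
  st : ∃ P1, St v par R (W ∪ N) h1 P1 D1 q1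
  same : ∀ w ∈ W, h1 w = h w

theorem St.ext' {W : Finset V} {h : V → ℕ} {P : Finset ℕ} {D q : ℕ} (H : St v par R W h P D q)
    (N : Finset V) (g : V → ℕ) (P' : Finset ℕ) (D' : ℕ)
    (hNW : ∀ n ∈ N, n ∉ W) (hNR : ∀ n ∈ N, n ∉ R)
    (hpar : ∀ n ∈ N, par n ∈ W ∨ par n ∈ N)
    (hg1 : ∀ n ∈ N, 1 ≤ g n) (hg2 : ∀ n ∈ N, g n < 2 * (q + N.card + D'))
    (hP : P'.card ≤ D')
    (hcov : ∀ j, 2 * q ≤ j → j < 2 * (q + N.card + D') → (∃ n ∈ N, g n = j) ∨
      (∃ n ∈ N, g n + (if par n ∈ W then h (par n) else g (par n)) = j) ∨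
      j ∈ P' ∨ ∃ p ∈ P', p + 1 = j)
    (hJ : ∀ b ∈ W ∪ N, Even (if b ∈ W then h b else g b) → Even (XS v par (W ∪ N) b).card) :
    ∃ h1, Ext v par R W h D q N (D + D') (q + N.card + D') h1 :=
  ⟨_, ⟨⟨_, H.ext N g P' D' hNW hNR hpar hg1 hg2 hP hcov hJ⟩, fun w hw => if_pos hw⟩⟩

theorem XS_union_of_not {W N : Finset V} {b : V} (h : ∀ n ∈ N, par n ≠ b) :
    XS v par (W ∪ N) b = XS v par W b := by
  ext c
  rw [mem_XS, mem_XS]
  constructor
  · rintro ⟨h1, h2, h3, h4⟩
    exact ⟨h1, h2, fun h5 => h3 (mem_union_left _ h5), h4⟩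
  · rintro ⟨h1, h2, h3, h4⟩
    refine ⟨h1, h2, fun h5 => ?_, h4⟩
    rcases mem_union.1 h5 with h6 | h6
    · exact h3 h6
    · exact h c h6 h2

theorem XS_union_sdiff {W N : Finset V} {b : V} :
    XS v par (W ∪ N) b = XS v par W b \ N := by
  ext c
  rw [mem_sdiff, mem_XS, mem_XS, mem_union]
  tauto

/-- Move 1: a single vertex whose parent has an odd label. -/
theorem St.move1 {W : Finset V} {h : V → ℕ} {P : Finset ℕ} {D q : ℕ} (H : St v par R W h P D q)
    {w : V} (hwW : w ∉ W) (hwR : w ∉ R) (hu : par w ∈ W) (hodd : Odd (h (par w)))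
    (hself : par w ≠ w) (hX : Even (XS v par W w).card) :
    ∃ h1, Ext v par R W h D q {w} (D + (h (par w) - 1) / 2) (q + 1 + (h (par w) - 1) / 2) h1 := by
  set a := h (par w) with ha
  obtain ⟨k, hk⟩ := hodd
  have hk2 : (a - 1) / 2 = k := by omega
  rw [hk2]
  have := H.ext' {w} (fun _ => 2 * q) (gaps (2 * q + 1) k) k (by simpa using hwW)
    (by simpa using hwR) (by simpa using Or.inl hu)
    (by
      intro n _
      have := H.hq
      have := card_pos.2 ⟨v, H.root⟩
      show 1 ≤ 2 * q
      omega)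
    (by
      intro n _
      rw [card_singleton]
      show 2 * q < _
      omega) (gaps_card _ _)
    (by
      intro j h1 h2
      rw [card_singleton] at h2
      by_cases h3 : j = 2 * q
      · left
        exact ⟨w, mem_singleton_self w, h3.symm⟩
      by_cases h4 : j = 2 * q + a
      · right; left
        refine ⟨w, mem_singleton_self w, ?_⟩
        rw [if_pos hu, h4]
      right; right
      exact gaps_cov _ _ (by omega) (by omega))
    (by
      intro b hb hbe
      rcases mem_union.1 hb with h1 | h1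
      · rw [if_pos h1] at hbe
        rw [XS_union_of_not]
        · exact H.parity b h1 hbe
        · intro n hn hnb
          rw [mem_singleton.1 hn] at hnb
          rw [← hnb, ← ha, hk] at hbe
          exact absurd hbe (by simp [Nat.even_add_one])
      · rw [mem_singleton] at h1
        subst h1
        rw [XS_union_of_not]
        · exact hX
        · intro n hn
          rw [mem_singleton.1 hn]
          exact hself)
  rw [card_singleton] at this
  exact this

end St

end Pool.Agent.Helper19.SeqAdd
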