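import Pool.Agent.Helper19.SeqAdd.Phases

namespace Pool.Agent.Helper19.SeqAdd

open Finset

variable {V : Type*} [Fintype V]

/-- Every finite set of at most `R.card` elements is covered by the image of `R` under a function. -/
theorem exists_cover {α β : Type*} [DecidableEq α] [DecidableEq β] [Inhabited β] (R : Finset α) (P : Finset β)
    (h : P.card ≤ R.card) : ∃ f : α → β, ∀ p ∈ P, ∃ r ∈ R, f r = p := by
  obtain ⟨R', hR', hc⟩ := exists_subset_card_eq h
  let e := equivOfCardEq hc
  refine ⟨fun z => if hz : z ∈ R' then (e ⟨z, hz⟩ : β) else default, fun p hp => ?_⟩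
  refine ⟨(e.symm ⟨p, hp⟩ : α), hR' (e.symm ⟨p, hp⟩).2, ?_⟩
  refine (dif_pos (e.symm ⟨p, hp⟩).2).trans ?_
  have : (⟨((e.symm ⟨p, hp⟩ : R') : α), (e.symm ⟨p, hp⟩).2⟩ : R') = e.symm ⟨p, hp⟩ := rfl
  rw [this, Equiv.apply_symm_apply]

theorem St.final {v : V} {par : V → V} {R : Finset V} [DecidableEq V] {W : Finset V} {h : V → ℕ}
    {P : Finset ℕ} {D q : ℕ} (H : St v par R W h P D q) (hR : ∀ r ∈ R, r ≠ v ∧ par r = v)
    (hW : ∀ w, w ∉ R → w ∈ W) (hD : D ≤ R.card) :
    ∃ f : V → ℕ, ∀ j, 1 ≤ j → j < 2 * Fintype.card V →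
      (∃ w, f w = j) ∨ ∃ w, w ≠ v ∧ f w + f (par w) = j := by
  have hcard : W.card + R.card = Fintype.card V := by
    rw [← card_union_of_disjoint (Finset.disjoint_left.2 fun a h1 h2 => H.notR a h1 h2)]
    have : W ∪ R = univ := by
      ext w
      simp only [mem_union, mem_univ, iff_true]
      by_cases h1 : w ∈ R
      · exact Or.inr h1
      · exact Or.inl (hW w h1)
    rw [this, card_univ]
  have hq := H.hq
  obtain ⟨g, hg⟩ := exists_cover R (P ∪ gaps (2 * q) (R.card - D)) (by
    refine (card_union_le _ _).trans ?_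
    have h1 := H.cardP
    have h2 := gaps_card (2 * q) (R.card - D)
    omega)
  refine ⟨fun w => if w ∈ R then g w else h w, fun j hj1 hj2 => ?_⟩
  have hvR : v ∉ R := fun h1 => (hR v h1).1 rfl
  have gap : ∀ p ∈ P ∪ gaps (2 * q) (R.card - D), ∀ j, p = j ∨ p + 1 = j →
      ((∃ w, (fun w => if w ∈ R then g w else h w) w = j) ∨
        ∃ w, w ≠ v ∧ (fun w => if w ∈ R then g w else h w) w +
          (fun w => if w ∈ R then g w else h w) (par w) = j) := by
    intro p hp j hj
    obtain ⟨r, hr, hgr⟩ := hg p hp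
    rcases hj with rfl | rfl
    · left
      refine ⟨r, ?_⟩
      show (if r ∈ R then g r else h r) = p
      rw [if_pos hr, hgr]
    · right
      refine ⟨r, (hR r hr).1, ?_⟩
      show (if r ∈ R then g r else h r) + (if par r ∈ R then g (par r) else h (par r)) = p + 1
      rw [(hR r hr).2, if_pos hr, if_neg hvR, hgr, H.hroot]
  by_cases hj : j < 2 * q
  · rcases H.cov j hj1 hj with ⟨w, hw, h1⟩ | ⟨w, hw, hwv, h1⟩ | h1 | ⟨p, hp, h1⟩
    · left
      refine ⟨w, ?_⟩
      show (if w ∈ R then g w else h w) = j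
      rw [if_neg (H.notR w hw), h1]
    · right
      refine ⟨w, hwv, ?_⟩
      show (if w ∈ R then g w else h w) + (if par w ∈ R then g (par w) else h (par w)) = j
      rw [if_neg (H.notR w hw), if_neg (H.notR _ (H.closed w hw hwv)), h1]
    · exact gap j (mem_union_left _ h1) j (Or.inl rfl)
    · exact gap p (mem_union_left _ hp) j (Or.inr h1)
  · rcases gaps_cov (2 * q) (R.card - D) (j := j) (by omega) (by omega) with h1 | ⟨p, hp, h1⟩
    · exact gap j (mem_union_right _ h1) j (Or.inl rfl)
    · exact gap p (mem_union_right _ hp) j (Or.inr h1)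

/-- Counting: a function whose labels cover the interval is a numbering. -/
theorem conclude [DecidableEq V] (G : SimpleGraph V) (hG : G.IsTree) (v : V) (par : V → V)
    (hpar : ∀ w, w ≠ v → G.Adj w (par w)) (f : V → ℕ)
    (hf : ∀ j, 1 ≤ j → j < 2 * Fintype.card V →
      (∃ w, f w = j) ∨ ∃ w, w ≠ v ∧ f w + f (par w) = j) :
    Function.Injective
      (Sum.elim f
        (fun e : G.edgeSet =>
          Sym2.lift ⟨fun u v => f u + f v, fun u v => add_comm (f u) (f v)⟩ e.1)) ∧
    Set.range
      (Sum.elim f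
        (fun e : G.edgeSet =>
          Sym2.lift ⟨fun u v => f u + f v, fun u v => add_comm (f u) (f v)⟩ e.1))
      = Set.Icc 1 (Fintype.card V + Nat.card G.edgeSet) := by
  classical
  set F := Sum.elim f (fun e : G.edgeSet =>
    Sym2.lift ⟨fun u v => f u + f v, fun u v => add_comm (f u) (f v)⟩ e.1) with hF
  have hE : Nat.card G.edgeSet + 1 = Fintype.card V := by
    have := hG.card_edgeFinset
    rw [← this, Nat.card_eq_fintype_card, SimpleGraph.edgeFinset_card]
  have hcov : Icc 1 (Fintype.card V + Nat.card G.edgeSet) ⊆ univ.image F := by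
    intro j hj
    rw [mem_Icc] at hj
    rw [mem_image]
    rcases hf j hj.1 (by omega) with ⟨w, h1⟩ | ⟨w, h1, h2⟩
    · exact ⟨Sum.inl w, mem_univ _, h1⟩
    · exact ⟨Sum.inr ⟨s(w, par w), hpar w h1⟩, mem_univ _, h2⟩
  have hcard : (univ : Finset (V ⊕ G.edgeSet)).card =
      (Icc 1 (Fintype.card V + Nat.card G.edgeSet)).card := by
    rw [Nat.card_Icc, card_univ, Fintype.card_sum, Nat.card_eq_fintype_card]
    omega
  have hle : (univ.image F).card ≤ (Icc 1 (Fintype.card V + Nat.card G.edgeSet)).card := by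
    rw [← hcard]
    exact card_image_le
  have heq : Icc 1 (Fintype.card V + Nat.card G.edgeSet) = univ.image F :=
    eq_of_subset_of_card_le hcov hle
  constructor
  · have h1 : (univ.image F).card = (univ : Finset (V ⊕ G.edgeSet)).card := by
      rw [← heq, hcard]
    have h2 := card_image_iff.1 h1
    intro a b hab
    exact h2 (mem_coe.2 (mem_univ a)) (mem_coe.2 (mem_univ b)) hab
  · ext j
    rw [Set.mem_Icc, ← mem_Icc, heq, mem_image]
    simp

/-- The parent function of a tree. -/
theorem exists_par (G : SimpleGraph V) (hG : G.IsTree) (v : V) : ∃ (par : V → V) (d : V → ℕ),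
    ∀ w, w ≠ v → G.Adj w (par w) ∧ d (par w) < d w := by
  classical
  have h : ∀ w, ∃ p, w ≠ v → G.Adj w p ∧ G.dist p v < G.dist w v := by
    intro w
    by_cases hwv : w = v
    · exact ⟨w, fun h => absurd hwv h⟩
    obtain ⟨p, hp⟩ := hG.connected.exists_walk_length_eq_dist w v
    cases p with
    | nil => exact absurd rfl hwv
    | cons hadj p' =>
      rename_i z
      refine ⟨z, fun _ => ⟨hadj, ?_⟩⟩
      have h1 := SimpleGraph.dist_le p'
      rw [SimpleGraph.Walk.length_cons] at hp
      omega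
  choose par hpar using h
  exact ⟨par, fun w => G.dist w v, hpar⟩

end Pool.Agent.Helper19.SeqAdd
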