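import Pool.Agent.Helper19.SeqAdd.Final

namespace Pool.Agent.Helper19.SeqAdd

open Finset

variable {V : Type*} [Fintype V]

theorem St.init [DecidableEq V] (v : V) (par : V → V) (R : Finset V) (hR : v ∉ R) :
    St v par R {v} (fun _ => 1) ∅ 0 1 := by
  constructor
  · exact mem_singleton_self v
  · rfl
  · intro w hw hwv
    exact absurd (mem_singleton.1 hw) hwv
  · intro w _
    exact le_rfl
  · intro w _
    show 1 < 2 * 1
    norm_num
  · intro w hw
    rw [mem_singleton.1 hw]
    exact hR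
  · rfl
  · rfl
  · intro j h1 h2
    exact Or.inl ⟨v, mem_singleton_self v, by omega⟩
  · intro b _ hb
    exact absurd hb (by decide)

theorem bound {m : ℕ} (hm : 1 ≤ m) : m * (2 ^ m + m * 4 ^ (m + 1)) ≤ 32 ^ m := by
  obtain ⟨n, rfl⟩ : ∃ n, m = n + 1 := ⟨m - 1, by omega⟩
  have h1 : n + 1 ≤ 2 ^ n := Nat.lt_two_pow_self
  have h2 : (4 : ℕ) ^ n = 2 ^ n * 2 ^ n := by rw [← mul_pow]; norm_num
  have h3 : (16 : ℕ) ^ n = (2 ^ n * 2 ^ n) * (2 ^ n * 2 ^ n) := by
    rw [← mul_pow, ← mul_pow]; norm_num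
  have h4 : (32 : ℕ) ^ n = 2 ^ n * ((2 ^ n * 2 ^ n) * (2 ^ n * 2 ^ n)) := by
    rw [← mul_pow, ← mul_pow, ← mul_pow]; norm_num
  have h5 : 1 ≤ 2 ^ n := Nat.one_le_two_pow
  set a := 2 ^ n with ha
  have e1 : 2 ^ (n + 1) = 2 * a := by rw [pow_succ, ← ha]; ring
  have e2 : 4 ^ (n + 1 + 1) = 16 * (a * a) := by rw [pow_succ, pow_succ, h2]; ring
  have e3 : 32 ^ (n + 1) = 32 * (a * ((a * a) * (a * a))) := by rw [pow_succ, h4]; ring
  rw [e1, e2, e3]
  calc (n + 1) * (2 * a + (n + 1) * (16 * (a * a))) ≤ a * (2 * a + a * (16 * (a * a))) := by gcongr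
    _ = 2 * (a * a) + 16 * (a * a * (a * a)) := by ring
    _ ≤ 2 * (a * a * (a * a)) + 16 * (a * a * (a * a)) := by
        have : a * a ≤ a * a * (a * a) := Nat.le_mul_of_pos_right _ (by positivity)
        omega
    _ ≤ 32 * (a * a * (a * a)) := by omega
    _ ≤ 32 * (a * ((a * a) * (a * a))) := by
        have : a * a * (a * a) ≤ a * ((a * a) * (a * a)) := Nat.le_mul_of_pos_left _ h5
        omega

theorem two_le_ncard {G : SimpleGraph V} {u a b : V} (ha : G.Adj u a) (hb : G.Adj u b)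
    (hab : a ≠ b) : 2 ≤ (G.neighborSet u).ncard :=
  (Set.one_lt_ncard (Set.toFinite _)).2 ⟨a, ha, b, hb, hab⟩

theorem par_mem {G : SimpleGraph V} {v : V} {par : V → V} {d : V → ℕ}
    (h : ∀ w, w ≠ v → G.Adj w (par w) ∧ d (par w) < d w) {w : V} (hw : w ≠ v)
    (hv : par w ≠ v) : 2 ≤ (G.neighborSet (par w)).ncard := by
  refine two_le_ncard (h w hw).1.symm (h _ hv).1 fun h1 => ?_
  have h2 := (h w hw).2
  have h3 := (h _ hv).2
  rw [← h1] at h3
  exact absurd h3 (not_lt.2 h2.le)

theorem main [DecidableEq V] (G : SimpleGraph V) (hG : G.IsTree) (m : ℕ)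
    (hm : {w : V | 2 ≤ (G.neighborSet w).ncard}.ncard ≤ m) (hn : 32 ^ m ≤ Fintype.card V) :
    ∃ (v : V) (par : V → V) (f : V → ℕ), (∀ w, w ≠ v → G.Adj w (par w)) ∧
      ∀ j, 1 ≤ j → j < 2 * Fintype.card V →
        (∃ w, f w = j) ∨ ∃ w, w ≠ v ∧ f w + f (par w) = j := by
  classical
  set C : Finset V := univ.filter fun w => 2 ≤ (G.neighborSet w).ncard with hC
  have hmemC : ∀ w, w ∈ C ↔ 2 ≤ (G.neighborSet w).ncard := by
    intro w
    rw [hC, mem_filter]
    simp
  have hCm : C.card ≤ m := by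
    have : {w : V | 2 ≤ (G.neighborSet w).ncard} = (C : Set V) := by
      ext w
      rw [mem_coe, hmemC]
      rfl
    rw [this, Set.ncard_coe_finset] at hm
    exact hm
  obtain ⟨v0⟩ := hG.connected.nonempty
  rcases C.eq_empty_or_nonempty with h0 | ⟨r, hr⟩
  · obtain ⟨par, d, hpar⟩ := exists_par G hG v0
    have h1 : ∀ w, w ≠ v0 → par w = v0 := by
      intro w hw
      by_contra hcon
      have := (hmemC _).2 (par_mem hpar hw hcon)
      rw [h0] at this
      exact absurd this (notMem_empty _)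
    have hinit := St.init v0 par (univ.erase v0) (notMem_erase _ _)
    obtain ⟨f, hf⟩ := hinit.final (fun r hr => ⟨(mem_erase.1 hr).1, h1 r (mem_erase.1 hr).1⟩)
      (fun w hw => by
        rw [mem_singleton]
        by_contra hcon
        exact hw (mem_erase.2 ⟨hcon, mem_univ _⟩)) (Nat.zero_le _)
    exact ⟨v0, par, f, fun w hw => (hpar w hw).1, hf⟩
  · obtain ⟨par0, d0, hpar0⟩ := exists_par G hG r
    have hc1 : 1 ≤ C.card := card_pos.2 ⟨r, hr⟩
    have hmaps : ∀ a ∈ univ \ C, par0 a ∈ C := by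
      intro a ha
      rw [mem_sdiff] at ha
      have har : a ≠ r := fun h1 => ha.2 (h1 ▸ hr)
      by_cases h1 : par0 a = r
      · rw [h1]; exact hr
      · exact (hmemC _).2 (par_mem hpar0 har h1)
    have hsc : (univ \ C).card = Fintype.card V - C.card := by
      rw [card_sdiff_of_subset (subset_univ _), card_univ]
    obtain ⟨v, hv, hk⟩ := exists_le_card_fiber_of_mul_le_card_of_maps_to hmaps ⟨r, hr⟩
      (n := (Fintype.card V - C.card) / C.card) (by
        rw [hsc]
        exact Nat.mul_div_le _ _)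
    obtain ⟨par, d, hpar⟩ := exists_par G hG v
    set R : Finset V := univ.filter fun w => w ≠ v ∧ par w = v ∧ w ∉ C with hR
    have hmemR : ∀ w, w ∈ R ↔ w ≠ v ∧ par w = v ∧ w ∉ C := by
      intro w
      rw [hR, mem_filter]
      simp
    have hfib : ((univ \ C).filter fun a => par0 a = v) ⊆ R := by
      intro w hw
      rw [mem_filter, mem_sdiff] at hw
      have hwv : w ≠ v := fun h1 => hw.1.2 (h1 ▸ hv)
      have hwr : w ≠ r := fun h1 => hw.1.2 (h1 ▸ hr)
      refine (hmemR w).2 ⟨hwv, ?_, hw.1.2⟩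
      by_contra hcon
      refine hw.1.2 ((hmemC w).2 ?_)
      have h1 := (hpar0 w hwr).1
      rw [hw.2] at h1
      exact two_le_ncard (hpar w hwv).1 h1 hcon
    have hRk : (Fintype.card V - C.card) / C.card ≤ R.card := hk.trans (card_le_card hfib)
    have T : Rt v par d R C :=
      { dlt := fun w hw => (hpar w hw).2
        vC := hv
        parC := by
          intro w hw
          by_cases h1 : par w = v
          · rw [h1]; exact hv
          · exact (hmemC _).2 (par_mem hpar hw h1)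
        Rv := fun r hr => ((hmemR r).1 hr).1
        Rpar := fun r hr => ((hmemR r).1 hr).2.1
        RC := fun r hr => ((hmemR r).1 hr).2.2 }
    have hinit := St.init v par R (fun h1 => ((hmemR v).1 h1).1 rfl)
    have hs : (C \ {v}).card ≤ C.card - 1 := by
      rw [card_sdiff_of_subset (singleton_subset_iff.2 hv), card_singleton]
    obtain ⟨W1, h1, P1, D1, q1, H1, hCW, hq1⟩ := phase1 T (C.card - 1) hinit hs
    have hq2 : q1 + 1 ≤ 2 ^ m := by
      refine hq1.trans ?_
      have : 2 ^ (C.card - 1) * (1 + 1) = 2 ^ C.card := by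
        rw [show 1 + 1 = 2 from rfl, ← pow_succ, Nat.sub_add_cancel hc1]
      rw [this]
      exact Nat.pow_le_pow_right (by norm_num) hCm
    have hA : ∀ u ∈ C, h1 u ≤ 2 ^ (m + 1) := by
      intro u hu
      have := H1.lt u (hCW hu)
      rw [pow_succ]
      omega
    obtain ⟨W2, h2, P2, D2, q2, H2, hW12, -, hT, hD2⟩ := phase2 T C (Subset.refl _) H1 hCW hA
    have hW : ∀ w, w ∉ R → w ∈ W2 := by
      intro w hw
      by_contra hcon
      have hwv : w ≠ v := fun h3 => hcon (h3 ▸ H2.root)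
      have h3 := hT (par w) (T.parC w hwv)
      rw [eq_empty_iff_forall_notMem] at h3
      exact h3 w (mem_Tt.2 ⟨hwv, rfl, hcon, hw⟩)
    have hD : D2 ≤ R.card := by
      by_contra hcon
      push Not at hcon
      have hm1 : 1 ≤ m := hc1.trans hCm
      have hD1 : D1 ≤ q1 := by
        have := H1.hq
        omega
      have e1 : 2 ^ (m + 1) * 2 ^ (m + 1) = 4 ^ (m + 1) := by rw [← mul_pow]; norm_num
      rw [e1] at hD2
      have h3 : C.card * 4 ^ (m + 1) ≤ m * 4 ^ (m + 1) := Nat.mul_le_mul_right _ hCm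
      have h4 : D2 + 1 ≤ 2 ^ m + m * 4 ^ (m + 1) := by omega
      set k := (Fintype.card V - C.card) / C.card with hk'
      have h5 : Fintype.card V - C.card < C.card * (k + 1) := by
        have := Nat.lt_mul_div_succ (Fintype.card V - C.card) (by omega : 0 < C.card)
        exact this
      have h6 : Fintype.card V < C.card * (k + 2) := by
        have : C.card * (k + 2) = C.card * (k + 1) + C.card := by ring
        omega
      have h7 : C.card * (k + 2) ≤ m * (2 ^ m + m * 4 ^ (m + 1)) :=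
        Nat.mul_le_mul hCm (by omega)
      have h8 := bound hm1
      omega
    obtain ⟨f, hf⟩ := H2.final (fun r hr => ⟨T.Rv r hr, T.Rpar r hr⟩) hW hD
    exact ⟨v, par, f, fun w hw => (hpar w hw).1, hf⟩

end Pool.Agent.Helper19.SeqAdd
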