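import Pool.Agent.Helper19.SeqAdd.Basic

namespace Pool.Agent.Helper19.SeqAdd

open Finset

variable {V : Type*} [Fintype V] {v : V} {par : V → V} {R : Finset V} [DecidableEq V]

theorem even_card_sdiff {A N : Finset V} (h : N ⊆ A) (h1 : Even A.card) (h2 : Even N.card) :
    Even (A \ N).card := by
  rw [card_sdiff_of_subset h]
  exact (Nat.even_sub (card_le_card h)).2 ⟨fun _ => h2, fun _ => h1⟩

theorem St.XS_eq_Ch {W : Finset V} {h : V → ℕ} {P : Finset ℕ} {D q : ℕ}
    (H : St v par R W h P D q) {w : V} (hw : w ∉ W) (hX : X v par w) :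
    XS v par W w = Ch v par w := by
  ext c
  rw [mem_XS, mem_Ch]
  constructor
  · rintro ⟨h1, h2, -, -⟩
    exact ⟨h1, h2⟩
  · rintro ⟨h1, h2⟩
    exact ⟨h1, h2, H.child_notMem hw h1 h2, X_child hX h1 h2⟩

/-- Move 2: a vertex and one of its children. -/
theorem St.move2 {W : Finset V} {h : V → ℕ} {P : Finset ℕ} {D q : ℕ} (H : St v par R W h P D q)
    {w l : V} (hwW : w ∉ W) (hwR : w ∉ R) (hu : par w ∈ W) (hlv : l ≠ v) (hl : par l = w)
    (hlR : l ∉ R) (hwl : w ≠ l)
    (hodd : Odd (h (par w)) → Even (XS v par W l).card)
    (heven : Even (h (par w)) → ¬ X v par w ∧ Even ((XS v par W w).erase l).card) :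
    ∃ h1, Ext v par R W h D q {w, l} (D + (q - 1)) (2 * q + 1) h1 := by
  have hq0 : 1 ≤ q := by
    have := H.hq
    have := card_pos.2 ⟨v, H.root⟩
    omega
  have hlW : l ∉ W := H.child_notMem hwW hlv hl
  have hparw : par w ≠ w := fun h1 => hwW (h1 ▸ hu)
  set a := h (par w) with ha
  have ha1 : 1 ≤ a := H.pos _ hu
  have ha2 : a < 2 * q := H.lt _ hu
  have hcard : ({w, l} : Finset V).card = 2 := card_pair hwl
  have := H.ext' {w, l} (fun z => if z = w then 2 * q + a % 2 else 2 * q + 1 - a % 2)
    (gaps (2 * q + 2) ((a % 2 + a - 2) / 2) ∪ gaps (2 * q + a % 2 + a + 1)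
      ((2 * q - (a % 2 + a)) / 2)) (q - 1)
    (by
      intro n hn
      rcases mem_insert.1 hn with rfl | hn
      · exact hwW
      · rw [mem_singleton.1 hn]; exact hlW)
    (by
      intro n hn
      rcases mem_insert.1 hn with rfl | hn
      · exact hwR
      · rw [mem_singleton.1 hn]; exact hlR)
    (by
      intro n hn
      rcases mem_insert.1 hn with rfl | hn
      · exact Or.inl hu
      · rw [mem_singleton.1 hn, hl]; exact Or.inr (mem_insert_self _ _))
    (by
      intro n _
      show 1 ≤ (if n = w then _ else _)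
      split_ifs <;> omega)
    (by
      intro n _
      show (if n = w then _ else _) < _
      rw [hcard]
      split_ifs <;> omega)
    (by
      refine (card_union_le _ _).trans ?_
      have h1 := gaps_card (2 * q + 2) ((a % 2 + a - 2) / 2)
      have h2 := gaps_card (2 * q + a % 2 + a + 1) ((2 * q - (a % 2 + a)) / 2)
      omega)
    (by
      intro j h1 h2
      rw [hcard] at h2
      by_cases h3 : j = 2 * q + a % 2
      · left
        exact ⟨w, mem_insert_self _ _, by rw [if_pos rfl, h3]⟩
      by_cases h4 : j = 2 * q + 1 - a % 2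
      · left
        refine ⟨l, mem_insert_of_mem (mem_singleton_self _), ?_⟩
        rw [if_neg (Ne.symm hwl), h4]
      by_cases h5 : j = 2 * q + a % 2 + a
      · right; left
        refine ⟨w, mem_insert_self _ _, ?_⟩
        rw [if_pos rfl, if_pos hu, h5]
      by_cases h6 : j = 4 * q + 1
      · right; left
        refine ⟨l, mem_insert_of_mem (mem_singleton_self _), ?_⟩
        rw [if_neg (Ne.symm hwl), hl, if_neg hwW, if_pos rfl, h6]
        omega
      right; right
      by_cases h7 : j < 2 * q + a % 2 + a
      · rcases gaps_cov (2 * q + 2) ((a % 2 + a - 2) / 2) (j := j) (by omega) (by omega) with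
          h8 | ⟨p, hp, h8⟩
        · exact Or.inl (mem_union_left _ h8)
        · exact Or.inr ⟨p, mem_union_left _ hp, h8⟩
      · rcases gaps_cov (2 * q + a % 2 + a + 1) ((2 * q - (a % 2 + a)) / 2) (j := j) (by omega)
          (by omega) with h8 | ⟨p, hp, h8⟩
        · exact Or.inl (mem_union_right _ h8)
        · exact Or.inr ⟨p, mem_union_right _ hp, h8⟩)
    (by
      intro b hb hbe
      rcases mem_union.1 hb with h1 | h1
      · rw [if_pos h1] at hbe
        by_cases hbu : b = par w
        · rw [hbu, ← ha] at hbe
          obtain ⟨h2, h3⟩ := heven hbe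
          have h4 : XS v par (W ∪ {w, l}) b = XS v par W b := by
            rw [XS_union_sdiff, Finset.sdiff_eq_self_iff_disjoint]
            refine Finset.disjoint_left.2 fun z hz1 hz2 => ?_
            rw [mem_XS] at hz1
            rcases mem_insert.1 hz2 with rfl | hz2
            · exact h2 hz1.2.2.2
            · rw [mem_singleton.1 hz2, hl] at hz1
              exact hwW (hz1.2.1 ▸ h1)
          rw [h4]
          exact H.parity b h1 (by rw [hbu, ← ha]; exact hbe)
        · rw [XS_union_of_not]
          · exact H.parity b h1 hbe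
          · intro n hn hnb
            rcases mem_insert.1 hn with rfl | hn
            · exact hbu hnb.symm
            · rw [mem_singleton.1 hn, hl] at hnb
              exact hwW (hnb ▸ h1)
      · have h1W : b ∉ W := by
          rcases mem_insert.1 h1 with rfl | h1
          · exact hwW
          · rw [mem_singleton.1 h1]; exact hlW
        rw [if_neg h1W] at hbe
        rcases mem_insert.1 h1 with rfl | h1
        · rw [if_pos rfl] at hbe
          have h2 : Even a := by
            rw [Nat.even_add] at hbe
            have h3 : Even (a % 2) := hbe.1 (even_two_mul q)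
            rcases Nat.mod_two_eq_zero_or_one a with h4 | h4
            · exact Nat.even_iff.2 h4
            · rw [h4] at h3
              exact absurd h3 (by decide)
          have h4 : XS v par (W ∪ {b, l}) b = (XS v par W b).erase l := by
            rw [XS_union_sdiff]
            ext z
            rw [mem_sdiff, mem_erase, mem_insert, mem_singleton, mem_XS]
            constructor
            · rintro ⟨h5, h6⟩
              exact ⟨fun h7 => h6 (Or.inr h7), h5⟩
            · rintro ⟨h5, h6⟩
              refine ⟨h6, fun h7 => ?_⟩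
              rcases h7 with rfl | h7
              · exact hparw h6.2.1
              · exact h5 h7
          rw [h4]
          exact (heven h2).2
        · rw [mem_singleton] at h1
          subst h1
          rw [if_neg (Ne.symm hwl)] at hbe
          have h2 : Odd a := by
            rcases Nat.mod_two_eq_zero_or_one a with h4 | h4
            · rw [h4] at hbe
              exact absurd hbe (by
                rw [Nat.sub_zero, Nat.even_add_one, not_not]
                exact even_two_mul q)
            · exact Nat.odd_iff.2 h4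
          rw [XS_union_of_not]
          · exact hodd h2
          · intro n hn hnb
            rcases mem_insert.1 hn with rfl | hn
            · exact hlW (hnb ▸ hu)
            · rw [mem_singleton.1 hn, hl] at hnb
              exact hwl hnb)
  rw [hcard] at this
  have e : q + 2 + (q - 1) = 2 * q + 1 := by omega
  rw [e] at this
  exact this

/-- Move 3: two children of a vertex with an even label. -/
theorem St.move3 {W : Finset V} {h : V → ℕ} {P : Finset ℕ} {D q : ℕ} (H : St v par R W h P D q)
    {u c c' : V} (hu : u ∈ W) (heven : Even (h u)) (hcc : c ≠ c')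
    (hc : c ∈ XS v par W u) (hc' : c' ∈ XS v par W u) (hcR : c ∉ R) (hcR' : c' ∉ R) :
    ∃ h1, Ext v par R W h D q {c, c'} (D + (h u - 2) / 2) (q + 2 + (h u - 2) / 2) h1 := by
  have hcp := mem_XS.1 hc
  have hcp' := mem_XS.1 hc'
  set a := h u with ha
  have ha1 : 1 ≤ a := H.pos _ hu
  have ha2 : a < 2 * q := H.lt _ hu
  obtain ⟨k, hk⟩ := heven
  have hcard : ({c, c'} : Finset V).card = 2 := card_pair hcc
  have hN : ({c, c'} : Finset V) ⊆ XS v par W u := by
    intro z hz
    rcases mem_insert.1 hz with rfl | hz
    · exact hc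
    · rw [mem_singleton.1 hz]; exact hc'
  have := H.ext' {c, c'} (fun z => if z = c then 2 * q else 2 * q + 1)
    (gaps (2 * q + 2) ((a - 2) / 2)) ((a - 2) / 2)
    (fun n hn => (mem_XS.1 (hN hn)).2.2.1)
    (by
      intro n hn
      rcases mem_insert.1 hn with rfl | hn
      · exact hcR
      · rw [mem_singleton.1 hn]; exact hcR')
    (fun n hn => Or.inl ((mem_XS.1 (hN hn)).2.1 ▸ hu))
    (by
      intro n _
      show 1 ≤ (if n = c then _ else _)
      split_ifs <;> omega)
    (by
      intro n _
      show (if n = c then _ else _) < _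
      rw [hcard]
      split_ifs <;> omega)
    (gaps_card _ _)
    (by
      intro j h1 h2
      rw [hcard] at h2
      by_cases h3 : j = 2 * q
      · left
        exact ⟨c, mem_insert_self _ _, by rw [if_pos rfl, h3]⟩
      by_cases h4 : j = 2 * q + 1
      · left
        refine ⟨c', mem_insert_of_mem (mem_singleton_self _), ?_⟩
        rw [if_neg (Ne.symm hcc), h4]
      by_cases h5 : j = 2 * q + a
      · right; left
        refine ⟨c, mem_insert_self _ _, ?_⟩
        rw [if_pos rfl, hcp.2.1, if_pos hu, h5]
      by_cases h6 : j = 2 * q + 1 + a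
      · right; left
        refine ⟨c', mem_insert_of_mem (mem_singleton_self _), ?_⟩
        rw [if_neg (Ne.symm hcc), hcp'.2.1, if_pos hu, h6]
      right; right
      exact gaps_cov _ _ (by omega) (by omega))
    (by
      intro b hb hbe
      rcases mem_union.1 hb with h1 | h1
      · rw [if_pos h1] at hbe
        by_cases hbu : b = u
        · rw [hbu, XS_union_sdiff]
          refine even_card_sdiff hN (H.parity u hu (by rw [← ha, hk]; exact ⟨k, rfl⟩)) ?_
          rw [hcard]
          exact even_two
        · rw [XS_union_of_not]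
          · exact H.parity b h1 hbe
          · intro n hn hnb
            exact hbu (hnb ▸ (mem_XS.1 (hN hn)).2.1)
      · have h2 := mem_XS.1 (hN h1)
        rw [XS_union_of_not, H.XS_eq_Ch h2.2.2.1 h2.2.2.2]
        · exact X_even h2.2.2.2
        · intro n hn hnb
          rw [(mem_XS.1 (hN hn)).2.1] at hnb
          exact h2.2.2.1 (hnb ▸ hu))
  rw [hcard] at this
  exact this

/-- Move 4: a block of `h u` childless children of `u`. -/
theorem St.move4 {W : Finset V} {h : V → ℕ} {P : Finset ℕ} {D q : ℕ} (H : St v par R W h P D q)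
    {u : V} (hu : u ∈ W) (N : Finset V) (hN : N.card = h u) (hNv : ∀ n ∈ N, n ≠ v)
    (hNu : ∀ n ∈ N, par n = u) (hNW : ∀ n ∈ N, n ∉ W) (hNR : ∀ n ∈ N, n ∉ R)
    (hNc : ∀ n ∈ N, ∀ c, c ≠ v → par c ≠ n) :
    ∃ h1, Ext v par R W h D q N D (q + h u) h1 := by
  set a := h u with ha
  have ha1 : 1 ≤ a := H.pos _ hu
  have hq0 : 1 ≤ q := by
    have := H.hq
    have := card_pos.2 ⟨v, H.root⟩
    omega
  have hCh : ∀ n ∈ N, ∀ W' : Finset V, (XS v par W' n).card = 0 := by
    intro n hn W'
    rw [card_eq_zero, eq_empty_iff_forall_notMem]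
    intro c hc
    have := mem_XS.1 hc
    exact hNc n hn c this.1 this.2.1
  have hNX : N ⊆ XS v par W u := by
    intro n hn
    refine mem_XS.2 ⟨hNv n hn, hNu n hn, hNW n hn, X_of ?_ ?_⟩
    · have : Ch v par n = ∅ := by
        rw [eq_empty_iff_forall_notMem]
        intro c hc
        have := mem_Ch.1 hc
        exact hNc n hn c this.1 this.2
      rw [this, card_empty]
      exact ⟨0, rfl⟩
    · intro c hc hp
      exact absurd hp (hNc n hn c hc)
  let e := N.equivFinOfCardEq hN
  let g : V → ℕ := fun z => if hz : z ∈ N then 2 * q + (e ⟨z, hz⟩ : ℕ) else 0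
  have hg : ∀ n (hn : n ∈ N), g n = 2 * q + (e ⟨n, hn⟩ : ℕ) := fun n hn => dif_pos hn
  have hsurj : ∀ i, i < a → ∃ n ∈ N, g n = 2 * q + i := by
    intro i hi
    refine ⟨(e.symm ⟨i, hi⟩ : V), (e.symm ⟨i, hi⟩).2, ?_⟩
    rw [hg _ (e.symm ⟨i, hi⟩).2]
    have : (⟨((e.symm ⟨i, hi⟩ : N) : V), (e.symm ⟨i, hi⟩).2⟩ : N) = e.symm ⟨i, hi⟩ := rfl
    rw [this, Equiv.apply_symm_apply]
  have := H.ext' N g ∅ 0 hNW hNR (fun n hn => Or.inl ((hNu n hn) ▸ hu))
    (by
      intro n hn
      rw [hg n hn]
      omega)
    (by
      intro n hn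
      rw [hg n hn, hN]
      have := (e ⟨n, hn⟩).2
      omega)
    (by simp)
    (by
      intro j h1 h2
      rw [hN] at h2
      by_cases h3 : j < 2 * q + a
      · left
        obtain ⟨n, hn, h4⟩ := hsurj (j - 2 * q) (by omega)
        exact ⟨n, hn, by omega⟩
      · right; left
        obtain ⟨n, hn, h4⟩ := hsurj (j - 2 * q - a) (by omega)
        refine ⟨n, hn, ?_⟩
        rw [hNu n hn, if_pos hu, h4, ← ha]
        omega)
    (by
      intro b hb hbe
      rcases mem_union.1 hb with h1 | h1
      · rw [if_pos h1] at hbe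
        by_cases hbu : b = u
        · rw [hbu, XS_union_sdiff]
          rw [hbu] at hbe
          refine even_card_sdiff hNX (H.parity u hu hbe) ?_
          rw [hN]
          exact hbe
        · rw [XS_union_of_not]
          · exact H.parity b h1 hbe
          · intro n hn hnb
            exact hbu (hnb ▸ hNu n hn)
      · rw [hCh b h1]
        exact ⟨0, rfl⟩)
  rw [hN] at this
  exact this

end Pool.Agent.Helper19.SeqAdd
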