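import Pool.Agent.Helper19.SeqAdd.Moves

namespace Pool.Agent.Helper19.SeqAdd

open Finset

variable {V : Type*} [Fintype V] {v : V} {par : V → V} {R C : Finset V} [DecidableEq V]

/-- The hypotheses on the rooted tree: `C` contains the root and all parents, `R` is a set of
children of the root outside `C`. -/
structure Rt (v : V) (par : V → V) (d : V → ℕ) (R C : Finset V) : Prop where
  dlt : ∀ w, w ≠ v → d (par w) < d w
  vC : v ∈ C
  parC : ∀ w, w ≠ v → par w ∈ C
  Rv : ∀ r ∈ R, r ≠ v
  Rpar : ∀ r ∈ R, par r = v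
  RC : ∀ r ∈ R, r ∉ C

theorem phase1_step {d : V → ℕ} (T : Rt v par d R C) {W : Finset V} {h : V → ℕ} {P : Finset ℕ}
    {D q : ℕ} (H : St v par R W h P D q) {w : V} (hwC : w ∈ C) (hwW : w ∉ W) (hu : par w ∈ W) :
    ∃ N h1 D1 q1, w ∈ N ∧ Ext v par R W h D q N D1 q1 h1 ∧ q1 ≤ 2 * q + 1 := by
  have hwv : w ≠ v := fun h1 => hwW (h1 ▸ H.root)
  have hwR : w ∉ R := fun h1 => T.RC w h1 hwC
  have ha2 : h (par w) < 2 * q := H.lt _ hu
  have hself : par w ≠ w := fun h1 => hwW (h1 ▸ hu)
  have hl1 : ∀ l, par l = w → l ∉ R := fun l hl h1 => hwv (hl ▸ T.Rpar l h1)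
  have hl2 : ∀ l, par l = w → w ≠ l := fun l hl h1 => hself (h1 ▸ hl)
  rcases Nat.even_or_odd (h (par w)) with hev | hodd
  · by_cases hX : X v par w
    · have h1 : w ∈ XS v par W (par w) := mem_XS.2 ⟨hwv, rfl, hwW, hX⟩
      have h2 := H.parity _ hu hev
      have h3 : 1 < (XS v par W (par w)).card := by
        have h4 := card_pos.2 ⟨w, h1⟩
        obtain ⟨k, hk⟩ := h2
        omega
      obtain ⟨c', hc', hne⟩ := exists_mem_ne h3 w
      have hcR' : c' ∉ R := by
        intro h4
        have h5 := T.Rpar c' h4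
        rw [(mem_XS.1 hc').2.1] at h5
        rw [h5, H.hroot] at hev
        exact absurd hev (by decide)
      obtain ⟨h1', h4⟩ := H.move3 hu hev hne.symm h1 hc' hwR hcR'
      exact ⟨_, _, _, _, mem_insert_self _ _, h4, by omega⟩
    · rcases Nat.even_or_odd (XS v par W w).card with h1 | h1
      · have h2 : ∃ l, l ≠ v ∧ par l = w ∧ ¬ X v par l := by
          by_contra hcon
          push Not at hcon
          refine hX (X_of ?_ hcon)
          have : XS v par W w = Ch v par w := by
            ext c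
            rw [mem_XS, mem_Ch]
            constructor
            · rintro ⟨h2, h3, -, -⟩
              exact ⟨h2, h3⟩
            · rintro ⟨h2, h3⟩
              exact ⟨h2, h3, H.child_notMem hwW h2 h3, hcon c h2 h3⟩
          rw [← this]
          exact h1
        obtain ⟨l, hlv, hl, hlX⟩ := h2
        obtain ⟨h1', h4⟩ := H.move2 hwW hwR hu hlv hl (hl1 l hl) (hl2 l hl)
          (fun h2 => absurd hev (Nat.not_even_iff_odd.2 h2))
          (fun _ => ⟨hX, by
            rw [erase_eq_of_notMem]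
            · exact h1
            · exact fun h2 => hlX (mem_XS.1 h2).2.2.2⟩)
        exact ⟨_, _, _, _, mem_insert_self _ _, h4, le_rfl⟩
      · obtain ⟨l, hl⟩ := card_pos.1 h1.pos
        have hl' := mem_XS.1 hl
        obtain ⟨h1', h4⟩ := H.move2 hwW hwR hu hl'.1 hl'.2.1 (hl1 l hl'.2.1) (hl2 l hl'.2.1)
          (fun h2 => absurd hev (Nat.not_even_iff_odd.2 h2))
          (fun _ => ⟨hX, by
            rw [card_erase_of_mem hl]
            obtain ⟨k, hk⟩ := h1
            rw [hk]
            exact ⟨k, by omega⟩⟩)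
        exact ⟨_, _, _, _, mem_insert_self _ _, h4, le_rfl⟩
  · rcases Nat.even_or_odd (XS v par W w).card with h1 | h1
    · obtain ⟨h1', h4⟩ := H.move1 hwW hwR hu hodd hself h1
      exact ⟨_, _, _, _, mem_singleton_self _, h4, by omega⟩
    · obtain ⟨l, hl⟩ := card_pos.1 h1.pos
      have hl' := mem_XS.1 hl
      obtain ⟨h1', h4⟩ := H.move2 hwW hwR hu hl'.1 hl'.2.1 (hl1 l hl'.2.1) (hl2 l hl'.2.1)
        (fun _ => by
          rw [H.XS_eq_Ch hl'.2.2.1 hl'.2.2.2]
          exact X_even hl'.2.2.2)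
        (fun h2 => absurd h2 (Nat.not_even_iff_odd.2 hodd))
      exact ⟨_, _, _, _, mem_insert_self _ _, h4, le_rfl⟩

theorem phase1 {d : V → ℕ} (T : Rt v par d R C) (s : ℕ) : ∀ {W : Finset V} {h : V → ℕ}
    {P : Finset ℕ} {D q : ℕ}, St v par R W h P D q → (C \ W).card ≤ s →
    ∃ W1 h1 P1 D1 q1, St v par R W1 h1 P1 D1 q1 ∧ C ⊆ W1 ∧ q1 + 1 ≤ 2 ^ s * (q + 1) := by
  induction s with
  | zero =>
    intro W h P D q H hs
    refine ⟨W, h, P, D, q, H, ?_, by rw [pow_zero, one_mul]⟩
    rw [Nat.le_zero, card_eq_zero, sdiff_eq_empty_iff_subset] at hs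
    exact hs
  | succ s ih =>
    intro W h P D q H hs
    by_cases hC : C ⊆ W
    · refine ⟨W, h, P, D, q, H, hC, ?_⟩
      have : 1 ≤ 2 ^ (s + 1) := Nat.one_le_two_pow
      exact Nat.le_mul_of_pos_left _ this
    · have hne : (C \ W).Nonempty := by
        rwa [nonempty_iff_ne_empty, Ne, sdiff_eq_empty_iff_subset]
      obtain ⟨w, hw, hmin⟩ := exists_min_image (C \ W) d hne
      rw [mem_sdiff] at hw
      have hwv : w ≠ v := fun h1 => hw.2 (h1 ▸ H.root)
      have hu : par w ∈ W := by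
        by_contra hcon
        exact absurd (hmin _ (mem_sdiff.2 ⟨T.parC w hwv, hcon⟩)) (not_le.2 (T.dlt w hwv))
      obtain ⟨N, h1, D1, q1, hwN, ⟨⟨P1, H1⟩, -⟩, hq1⟩ := phase1_step T H hw.1 hw.2 hu
      have hlt : (C \ (W ∪ N)).card < (C \ W).card := by
        refine card_lt_card ⟨sdiff_subset_sdiff (Subset.refl _) subset_union_left, fun h2 => ?_⟩
        have h3 := h2 (mem_sdiff.2 hw)
        exact (mem_sdiff.1 h3).2 (mem_union_right _ hwN)
      obtain ⟨W2, h2, P2, D2, q2, H2, h3, h4⟩ := ih H1 (by omega)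
      refine ⟨W2, h2, P2, D2, q2, H2, h3, h4.trans ?_⟩
      calc 2 ^ s * (q1 + 1) ≤ 2 ^ s * (2 * (q + 1)) := Nat.mul_le_mul_left _ (by omega)
        _ = 2 ^ (s + 1) * (q + 1) := by rw [pow_succ]; ring

/-- The children of `u` outside `W` and `R`. -/
def Tt (v : V) (par : V → V) (R W : Finset V) (u : V) : Finset V :=
  univ.filter fun c => c ≠ v ∧ par c = u ∧ c ∉ W ∧ c ∉ R

theorem mem_Tt {W : Finset V} {u c : V} :
    c ∈ Tt v par R W u ↔ c ≠ v ∧ par c = u ∧ c ∉ W ∧ c ∉ R := by
  simp [Tt]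

theorem Tt_union {W N : Finset V} {u : V} : Tt v par R (W ∪ N) u = Tt v par R W u \ N := by
  ext c
  rw [mem_sdiff, mem_Tt, mem_Tt, mem_union]
  tauto

theorem phase2_one {d : V → ℕ} (T : Rt v par d R C) {u : V} {a : ℕ} (huC : u ∈ C) (t : ℕ) :
    ∀ {W : Finset V} {h : V → ℕ} {P : Finset ℕ} {D q : ℕ}, St v par R W h P D q → C ⊆ W →
      h u = a → (Tt v par R W u).card = t →
      ∃ W1 h1 P1 D1 q1, St v par R W1 h1 P1 D1 q1 ∧ W ⊆ W1 ∧ (∀ w ∈ W, h1 w = h w) ∧
        Tt v par R W1 u = ∅ ∧ D1 ≤ D + t % a * a := by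
  induction t using Nat.strong_induction_on with
  | _ t ih =>
    intro W h P D q H hC ha ht
    have hu : u ∈ W := hC huC
    have ha1 : 1 ≤ a := ha ▸ H.pos _ hu
    have hchild : ∀ n, n ∉ W → ∀ c, c ≠ v → par c ≠ n := fun n hn c hc h1 =>
      hn (hC (h1 ▸ T.parC c hc))
    rcases Nat.eq_zero_or_pos t with h0 | hpos
    · refine ⟨W, h, P, D, q, H, Subset.refl _, fun _ _ => rfl, ?_, Nat.le_add_right _ _⟩
      rw [← card_eq_zero, ht, h0]
    -- the combination with the induction hypothesis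
    have key : ∀ (N : Finset V) (h1 : V → ℕ) (D1 q1 : ℕ), N ⊆ Tt v par R W u → N.Nonempty →
        Ext v par R W h D q N D1 q1 h1 → D1 + (t - N.card) % a * a ≤ D + t % a * a →
        ∃ W1 h1 P1 D1 q1, St v par R W1 h1 P1 D1 q1 ∧ W ⊆ W1 ∧ (∀ w ∈ W, h1 w = h w) ∧
        Tt v par R W1 u = ∅ ∧ D1 ≤ D + t % a * a := by
      intro N h1 D1 q1 hN hNne hE hD
      obtain ⟨⟨P1, H1⟩, hsame⟩ := hE
      have hc : (Tt v par R (W ∪ N) u).card = t - N.card := by
        rw [Tt_union, card_sdiff_of_subset hN, ht]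
      obtain ⟨W2, h2, P2, D2, q2, H2, h3, h4, h5, h6⟩ := ih (t - N.card)
        (by have := card_pos.2 hNne; omega) H1 (hC.trans subset_union_left)
        (by rw [hsame u hu, ha]) hc
      exact ⟨W2, h2, P2, D2, q2, H2, subset_union_left.trans h3,
        fun w hw => by rw [h4 w (mem_union_left _ hw), hsame w hw], h5, h6.trans hD⟩
    by_cases hta : a ≤ t
    · obtain ⟨N, hN, hNc⟩ := exists_subset_card_eq (s := Tt v par R W u) (n := a) (by omega)
      obtain ⟨h1, hE⟩ := H.move4 hu N (by rw [hNc, ha]) (fun n hn => (mem_Tt.1 (hN hn)).1)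
        (fun n hn => (mem_Tt.1 (hN hn)).2.1) (fun n hn => (mem_Tt.1 (hN hn)).2.2.1)
        (fun n hn => (mem_Tt.1 (hN hn)).2.2.2)
        (fun n hn => hchild n (mem_Tt.1 (hN hn)).2.2.1)
      refine key N h1 _ _ hN (card_pos.1 (by omega)) hE ?_
      rw [hNc, ← Nat.mod_eq_sub_mod hta]
    · push Not at hta
      have hmod : t % a = t := Nat.mod_eq_of_lt hta
      rcases Nat.even_or_odd a with hev | hodd
      · have huv : u ≠ v := by
          rintro rfl
          rw [← ha, H.hroot] at hev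
          exact absurd hev (by decide)
        have hTX : Tt v par R W u = XS v par W u := by
          ext c
          rw [mem_Tt, mem_XS]
          constructor
          · rintro ⟨h1, h2, h3, -⟩
            refine ⟨h1, h2, h3, X_of ?_ ?_⟩
            · have : Ch v par c = ∅ := by
                rw [eq_empty_iff_forall_notMem]
                intro z hz
                have := mem_Ch.1 hz
                exact hchild c h3 z this.1 this.2
              rw [this, card_empty]
              exact ⟨0, rfl⟩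
            · intro z hz hp
              exact absurd hp (hchild c h3 z hz)
          · rintro ⟨h1, h2, h3, -⟩
            exact ⟨h1, h2, h3, fun h4 => huv (h2 ▸ T.Rpar c h4)⟩
        have h2 : Even t := by
          rw [← ht, hTX]
          exact H.parity u hu (by rw [ha]; exact hev)
        have h3 : 1 < (Tt v par R W u).card := by
          obtain ⟨k, hk⟩ := h2
          omega
        obtain ⟨c, hc, c', hc', hne⟩ := one_lt_card.1 h3
        obtain ⟨h1, hE⟩ := H.move3 hu (by rw [ha]; exact hev) hne (hTX ▸ hc) (hTX ▸ hc')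
          (mem_Tt.1 hc).2.2.2 (mem_Tt.1 hc').2.2.2
        refine key {c, c'} h1 _ _ ?_ ⟨c, mem_insert_self _ _⟩ hE ?_
        · intro z hz
          rcases mem_insert.1 hz with rfl | hz
          · exact hc
          · rw [mem_singleton.1 hz]; exact hc'
        · rw [card_pair hne, hmod, Nat.mod_eq_of_lt (by omega : t - 2 < a), ha]
          have h4 : t = (t - 2) + 2 := by omega
          have h5 : t * a = (t - 2) * a + 2 * a := by
            conv_lhs => rw [h4]
            ring
          omega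
      · obtain ⟨c, hc⟩ := card_pos.1 (by omega : 0 < (Tt v par R W u).card)
        have hc' := mem_Tt.1 hc
        have hX0 : XS v par W c = ∅ := by
          rw [eq_empty_iff_forall_notMem]
          intro z hz
          have := mem_XS.1 hz
          exact hchild c hc'.2.2.1 z this.1 this.2.1
        obtain ⟨h1, hE⟩ := H.move1 hc'.2.2.1 hc'.2.2.2 (by rw [hc'.2.1]; exact hu)
          (by rw [hc'.2.1, ha]; exact hodd) (hchild c hc'.2.2.1 c hc'.1)
          (by rw [hX0, card_empty]; exact ⟨0, rfl⟩)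
        refine key {c} h1 _ _ (singleton_subset_iff.2 hc) ⟨c, mem_singleton_self _⟩ hE ?_
        rw [card_singleton, hmod, Nat.mod_eq_of_lt (by omega : t - 1 < a), hc'.2.1, ha]
        have h4 : t = (t - 1) + 1 := by omega
        have h5 : t * a = (t - 1) * a + a := by
          conv_lhs => rw [h4]
          ring
        omega

theorem phase2 {d : V → ℕ} (T : Rt v par d R C) {A : ℕ} (S : Finset V) (hS : S ⊆ C) :
    ∀ {W : Finset V} {h : V → ℕ} {P : Finset ℕ} {D q : ℕ}, St v par R W h P D q → C ⊆ W →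
      (∀ u ∈ C, h u ≤ A) →
      ∃ W1 h1 P1 D1 q1, St v par R W1 h1 P1 D1 q1 ∧ W ⊆ W1 ∧ (∀ w ∈ W, h1 w = h w) ∧
        (∀ u ∈ S, Tt v par R W1 u = ∅) ∧ D1 ≤ D + S.card * (A * A) := by
  classical
  induction S using Finset.induction_on with
  | empty =>
    intro W h P D q H _ _
    exact ⟨W, h, P, D, q, H, Subset.refl _, fun _ _ => rfl, fun u hu => absurd hu (notMem_empty u),
      Nat.le_add_right _ _⟩
  | insert u S hu ih =>
    intro W h P D q H hC hA
    obtain ⟨W1, h1, P1, D1, q1, H1, h2, h3, h4, h5⟩ := ih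
      ((subset_insert _ _).trans hS) H hC hA
    have huC : u ∈ C := hS (mem_insert_self _ _)
    obtain ⟨W2, h2', P2, D2, q2, H2, h6, h7, h8, h9⟩ := phase2_one T huC _ H1 (hC.trans h2) rfl rfl
    refine ⟨W2, h2', P2, D2, q2, H2, h2.trans h6, fun w hw => by rw [h7 w (h2 hw), h3 w hw], ?_, ?_⟩
    · intro z hz
      rcases mem_insert.1 hz with rfl | hz
      · exact h8
      · rw [eq_empty_iff_forall_notMem]
        intro c hc
        rw [mem_Tt] at hc
        have h10 := h4 z hz
        rw [eq_empty_iff_forall_notMem] at h10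
        exact h10 c (mem_Tt.2 ⟨hc.1, hc.2.1, fun h11 => hc.2.2.1 (h6 h11), hc.2.2.2⟩)
    · rw [card_insert_of_notMem hu, add_mul, one_mul]
      have h10 : h1 u ≤ A := by
        rw [h3 u (hC huC)]
        exact hA u huC
      have h11 : 0 < h1 u := H1.pos u (h2 (hC huC))
      have h12 : (Tt v par R W1 u).card % h1 u * h1 u ≤ A * A :=
        Nat.mul_le_mul ((Nat.mod_lt _ h11).le.trans h10) h10
      omega

end Pool.Agent.Helper19.SeqAdd
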